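import Pool.Agent.H11.KT.Targets

/-!
# (KT) the key theorem, from (KI)
-/

set_option autoImplicit false

open scoped commutatorElement

namespace Pool.Agent.H58.KT

open Pool.Agent.H11.EL Pool.Agent.H11.KT

/-- the key theorem -/
theorem pf_KT (hKI : K_KI) : K_KT := by
  intro s
  refine ⟨2 * s * (4 * (s + 3)), ?_⟩
  intro G _ _ hG h n hh hn g hg
  have hclo : Subgroup.closure (en s (sq s 1 n) ∪ (commutator G : Set G)) = ⊤ := by
    rw [eq_top_iff, ← hh, Subgroup.closure_le]
    rintro _ ⟨i, rfl⟩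
    have h1 : h i = n i * ((h i)⁻¹ * n i)⁻¹ := by group
    rw [h1]
    refine Subgroup.mul_mem _ (Subgroup.subset_closure (Or.inl ⟨i, i.2, ?_⟩))
      (Subgroup.inv_mem _ (Subgroup.subset_closure (Or.inr (hn i))))
    rw [sq_lt 1 n i.2]
  obtain ⟨c, hc, -⟩ := hKI s s G hG h hh (sq s 1 n) hclo g hg
  refine ⟨(List.range (2 * s * (4 * (s + 3)))).map (cj (pat s (sq s 1 n)) c), ?_, ?_, hc⟩
  · rw [List.length_map, List.length_range]
  · intro x hx
    rw [List.mem_map] at hx
    obtain ⟨i, hi, rfl⟩ := hx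
    rw [List.mem_range] at hi
    have hs : 0 < s := by
      rcases Nat.eq_zero_or_pos s with h0 | h0
      · subst h0; simp at hi
      · exact h0
    have hj : i / 2 % s < s := Nat.mod_lt _ hs
    refine ⟨⟨i / 2 % s, hj⟩, c i, ?_⟩
    unfold cj pat
    split_ifs
    · left; rw [sq_lt 1 n hj]
    · right; rw [sq_lt 1 n hj]

end Pool.Agent.H58.KT
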