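import Pool.Agent.H11.KT.Targets

/-!
# (PP) Cartesian products
-/

set_option autoImplicit false

open scoped commutatorElement

namespace Pool.Agent.H58.KT

open Pool.Agent.H11.EL Pool.Agent.H11.KT

/-- the value of a word in a component -/
theorem lift_comp {r : ℕ} (w : FreeGroup (Fin r)) {G : ℕ → Type} [∀ K, Group (G K)]
    (f : Fin r → (∀ K, G K)) (K : ℕ) :
    (FreeGroup.lift f w) K = FreeGroup.lift (fun i => f i K) w := by
  have h1 : (Pi.evalMonoidHom G K).comp (FreeGroup.lift f) =
      FreeGroup.lift (fun i => f i K) := by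
    ext i; simp
  rw [← h1]; rfl

/-- Cartesian products -/
theorem pf_PP : P_PP := by
  intro r w G _ g hg
  induction hg using Subgroup.closure_induction with
  | mem x hx =>
    obtain ⟨f, rfl⟩ := hx
    refine ⟨1, fun K => ?_⟩
    simp only
    rw [lift_comp]
    exact PW.val _
  | one => exact ⟨0, fun K => PW.one 0⟩
  | mul x y _ _ ihx ihy =>
    obtain ⟨m, hm⟩ := ihx
    obtain ⟨m', hm'⟩ := ihy
    exact ⟨m + m', fun K => (hm K).mul (hm' K)⟩
  | inv x _ ihx =>
    obtain ⟨m, hm⟩ := ihx
    exact ⟨m, fun K => (hm K).inv⟩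

end Pool.Agent.H58.KT
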